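import Pool.Agent.Helper75.PX.Stmts3

set_option autoImplicit false

universe u

open Module TensorProduct

namespace Pool.Agent.Helper75.PX

theorem x3_comm {K D : Type u} [Field K] [DivisionRing D] [Algebra K D]
    (hdim : finrank K D = 9) (hζ : ∀ ζ : K, ζ ^ 2 + ζ + 1 ≠ 0) {i v : D} {c b e : K}
    (hv0 : v ≠ 0) (hi0 : i ≠ 0) (hi : i * i * i = algebraMap K D c)
    (hv : v * v * v = algebraMap K D b) (hb : b ≠ 0)
    (hiv : i * v * (i * v) * (i * v) = algebraMap K D e) (he : e ≠ 0) :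
    (i * v⁻¹) * (i * (i * v⁻¹) * i⁻¹) = (i * (i * v⁻¹) * i⁻¹) * (i * v⁻¹) := by
  set x : D := i * v⁻¹ with hx
  set x1 : D := i * x * i⁻¹ with hx1
  have hE : algebraMap K D e ≠ 0 := by
    rw [Ne, FaithfulSMul.algebraMap_eq_zero_iff]
    exact he
  have hB : algebraMap K D b ≠ 0 := by
    rw [Ne, FaithfulSMul.algebraMap_eq_zero_iff]
    exact hb
  have hiv0 : i * v ≠ 0 := mul_ne_zero hi0 hv0
  -- the inverse of `i * v`
  have h1 : v⁻¹ * i⁻¹ = (algebraMap K D e)⁻¹ * (i * v * (i * v)) := by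
    rw [← mul_inv_rev, inv_eq_iff_eq_inv]
    rw [eq_comm, inv_eq_iff_eq_inv, eq_comm]
    rw [eq_comm, ← mul_left_inj' hiv0, inv_mul_cancel₀ hiv0, mul_assoc, hiv, inv_mul_cancel₀ hE]
  have h2 : v⁻¹ * v⁻¹ = (algebraMap K D b)⁻¹ * v := by
    have : (v * v) * v = algebraMap K D b := hv
    rw [← mul_inv_rev, ← mul_left_inj' (mul_ne_zero hv0 hv0), inv_mul_cancel₀
      (mul_ne_zero hv0 hv0), mul_assoc, ← mul_assoc v v v, hv, inv_mul_cancel₀ hB]
  have hcE : ∀ a : D, a * (algebraMap K D e)⁻¹ = (algebraMap K D e)⁻¹ * a := by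
    intro a
    rw [← map_inv₀]
    exact (Algebra.commutes _ _).symm
  have hcB : ∀ a : D, a * (algebraMap K D b)⁻¹ = (algebraMap K D b)⁻¹ * a := by
    intro a
    rw [← map_inv₀]
    exact (Algebra.commutes _ _).symm
  have h3 : x * x1 = (algebraMap K D e)⁻¹ * algebraMap K D c * (i * i * v) := by
    calc x * x1 = i * v⁻¹ * (i * i) * (v⁻¹ * i⁻¹) := by
          rw [hx1, hx]
          simp only [mul_assoc]
      _ = i * v⁻¹ * (i * i) * ((algebraMap K D e)⁻¹ * (i * v * (i * v))) := by rw [h1]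
      _ = (algebraMap K D e)⁻¹ * (i * v⁻¹ * (i * i) * (i * v * (i * v))) := by
          rw [← mul_assoc (i * v⁻¹ * (i * i)), hcE, mul_assoc]
      _ = (algebraMap K D e)⁻¹ * (i * v⁻¹ * (i * i * i) * (v * (i * v))) := by
          simp only [mul_assoc]
      _ = (algebraMap K D e)⁻¹ * (i * v⁻¹ * algebraMap K D c * (v * (i * v))) := by rw [hi]
      _ = (algebraMap K D e)⁻¹ * (algebraMap K D c * (i * v⁻¹) * (v * (i * v))) := by
          rw [← Algebra.commutes c (i * v⁻¹)]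
      _ = (algebraMap K D e)⁻¹ * algebraMap K D c * (i * (v⁻¹ * v) * (i * v)) := by
          simp only [mul_assoc]
      _ = (algebraMap K D e)⁻¹ * algebraMap K D c * (i * i * v) := by
          rw [inv_mul_cancel₀ hv0, mul_one, mul_assoc i i v]
  have h4 : x1 * x = (algebraMap K D b)⁻¹ * (i * i * v) := by
    calc x1 * x = i * i * v⁻¹ * (i⁻¹ * i) * v⁻¹ := by
          rw [hx1, hx]
          simp only [mul_assoc]
      _ = i * i * (v⁻¹ * v⁻¹) := by
          rw [inv_mul_cancel₀ hi0, mul_one, mul_assoc]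
      _ = i * i * ((algebraMap K D b)⁻¹ * v) := by rw [h2]
      _ = _ := by rw [← mul_assoc, hcB, mul_assoc]
  -- the factor
  have h5 : x * x1 = algebraMap K D (e⁻¹ * c * b) * (x1 * x) := by
    rw [h3, h4, map_mul, map_mul, map_inv₀, ← mul_assoc ((algebraMap K D e)⁻¹ * algebraMap K D c *
      algebraMap K D b), mul_assoc ((algebraMap K D e)⁻¹ * algebraMap K D c),
      mul_inv_cancel₀ hB, mul_one]
  have hx0 : x ≠ 0 := mul_ne_zero hi0 (inv_ne_zero hv0)
  have hx10 : x1 ≠ 0 := mul_ne_zero (mul_ne_zero hi0 hx0) (inv_ne_zero hi0)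
  have hfd : FiniteDimensional K D := FiniteDimensional.of_finrank_pos (by omega)
  have hN : ∀ y : D, y ≠ 0 → Algebra.norm K y ≠ 0 := by
    intro y hy h0
    have : Algebra.norm K (y * y⁻¹) = 1 := by
      rw [mul_inv_cancel₀ hy, map_one]
    rw [map_mul, h0, zero_mul] at this
    exact zero_ne_one this
  have h6 : Algebra.norm K x1 * Algebra.norm K x =
      (e⁻¹ * c * b) ^ 9 * (Algebra.norm K x1 * Algebra.norm K x) := by
    calc Algebra.norm K x1 * Algebra.norm K x = Algebra.norm K x * Algebra.norm K x1 :=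
          mul_comm _ _
      _ = Algebra.norm K (x * x1) := (map_mul (Algebra.norm K) x x1).symm
      _ = Algebra.norm K (algebraMap K D (e⁻¹ * c * b) * (x1 * x)) := by rw [h5]
      _ = Algebra.norm K (algebraMap K D (e⁻¹ * c * b)) * Algebra.norm K (x1 * x) :=
          map_mul (Algebra.norm K) _ _
      _ = (e⁻¹ * c * b) ^ 9 * Algebra.norm K (x1 * x) := by
          rw [Algebra.norm_algebraMap, hdim]
      _ = (e⁻¹ * c * b) ^ 9 * (Algebra.norm K x1 * Algebra.norm K x) :=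
          congrArg _ (map_mul (Algebra.norm K) x1 x)
  have h7 : (e⁻¹ * c * b) ^ 9 = 1 := by
    have hne : Algebra.norm K x1 * Algebra.norm K x ≠ 0 := mul_ne_zero (hN _ hx10) (hN _ hx0)
    have h8 : ((e⁻¹ * c * b) ^ 9 - 1) * (Algebra.norm K x1 * Algebra.norm K x) = 0 := by
      rw [sub_mul, one_mul, ← h6, sub_self]
    rcases mul_eq_zero.1 h8 with h | h
    · exact sub_eq_zero.1 h
    · exact absurd h hne
  have h9 : e⁻¹ * c * b = 1 := by
    set l := e⁻¹ * c * b with hl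
    have h10 : (l - 1) * ((l ^ 2 + l + 1) * ((l ^ 3) ^ 2 + l ^ 3 + 1)) = 0 := by
      have : (l - 1) * ((l ^ 2 + l + 1) * ((l ^ 3) ^ 2 + l ^ 3 + 1)) = l ^ 9 - 1 := by ring
      rw [this, h7, sub_self]
    rcases mul_eq_zero.1 h10 with h | h
    · exact sub_eq_zero.1 h
    · rcases mul_eq_zero.1 h with h | h
      · exact absurd h (hζ _)
      · exact absurd h (hζ _)
  rw [h5, h9, map_one, one_mul]

theorem st_X3 (_hMPD : ST_MPD.{u}) (_hMDV : ST_MDV.{u}) (_hTRZ : ST_TRZ.{u}) (_hTRM : ST_TRM.{u})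
    (_hMIN : ST_MIN.{u}) (hI3 : ST_I3.{u}) (hV3 : ST_V3.{u}) (hU3 : ST_U3.{u}) : ST_X3.{u} := by
  intro K D _ _ _ _ hdim h3 hζ
  obtain ⟨i, c, hi, hic⟩ := hI3 K D hdim h3
  obtain ⟨v, hv0, t1, t2, t3, t4, hvi⟩ := hV3 K D hdim h3 i c hi hic
  have hi0 : i ≠ 0 := fun h => hic 0 (by rw [h, map_zero])
  have hc0 : c ≠ 0 := by
    intro h
    rw [h, map_zero] at hi
    exact mul_ne_zero (mul_ne_zero hi0 hi0) hi0 hi
  obtain ⟨b, hb, hv⟩ := hU3 K D hdim h3 v hv0 t1 t2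
  obtain ⟨e, he, hiv⟩ := hU3 K D hdim h3 (i * v) (mul_ne_zero hi0 hv0) t3 t4
  refine ⟨i, i * v⁻¹, c, hc0, hi, x3_comm hdim hζ hv0 hi0 hi hv hb hiv he, ?_⟩
  intro h
  have h1 : i * v⁻¹ = v⁻¹ * i := by
    have : i * (i * v⁻¹) = i * (v⁻¹ * i) := by rw [h, mul_assoc]
    exact mul_left_cancel₀ hi0 this
  apply hvi
  calc v * i = v * (i * v⁻¹) * v := by
        rw [mul_assoc, mul_assoc, inv_mul_cancel₀ hv0, mul_one]
    _ = v * (v⁻¹ * i) * v := by rw [h1]
    _ = i * v := by rw [← mul_assoc, mul_inv_cancel₀ hv0, one_mul]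

end Pool.Agent.Helper75.PX
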